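import Mathlib

open Finset

namespace Pool.Agent.Results.MP_a35cac_co.Potts

/-- A symmetric association scheme with `d` classes on `X`; `r x y = i` means `(x,y) ∈ R_i`. -/
structure Scheme (X : Type) [Fintype X] [DecidableEq X] (d : ℕ) where
  r : X → X → Fin (d + 1)
  symm : ∀ x y, r x y = r y x
  diag : ∀ x y, r x y = 0 ↔ x = y
  nonempty : ∀ i, ∃ x y, r x y = i
  inter : ∃ p : Fin (d + 1) → Fin (d + 1) → Fin (d + 1) → ℕ,
    ∀ i j x y, (univ.filter (fun z => r x z = i ∧ r z y = j)).card = p i j (r x y)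

variable {X : Type} [Fintype X] [DecidableEq X] {d : ℕ}

/-- Adjacency matrix `A_i`. -/
def Scheme.A (S : Scheme X d) (i : Fin (d + 1)) : Matrix X X ℂ := fun x y => if S.r x y = i then 1 else 0

/-- The Bose–Mesner algebra: the span of the `A_i`. -/
def Scheme.BM (S : Scheme X d) : Submodule ℂ (Matrix X X ℂ) := Submodule.span ℂ (Set.range S.A)

/-- Formal self-duality: the primitive idempotents `E_i` can be ordered with `E_0 = J/n` and `P = Q`. -/
def Scheme.FSD (S : Scheme X d) : Prop :=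
  ∃ (E : Fin (d + 1) → Matrix X X ℂ) (P : Matrix (Fin (d + 1)) (Fin (d + 1)) ℂ),
    (∀ i, E i ≠ 0) ∧ (∀ i j, E i * E j = if i = j then E i else 0) ∧
    (∀ x y, E 0 x y = (Fintype.card X : ℂ)⁻¹) ∧
    (∀ i, S.A i = ∑ j, P j i • E j) ∧ (∀ i, E i = (Fintype.card X : ℂ)⁻¹ • ∑ j, P j i • S.A j)

def Del (L M N : Matrix X X ℂ) : X → X → X → ℂ := fun x y z => L x z * M x y * N y z
def Yt (L M N : Matrix X X ℂ) : X → X → X → ℂ := fun x y z => ∑ u, L x u * M y u * N z u

/-- Exactly triply regular: `Δ(𝔸) = Y(𝔸)`. -/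
def Scheme.ETR (S : Scheme X d) : Prop :=
  Submodule.span ℂ {T | ∃ L ∈ S.BM, ∃ M ∈ S.BM, ∃ N ∈ S.BM, T = Del L M N} =
    Submodule.span ℂ {T | ∃ L ∈ S.BM, ∃ M ∈ S.BM, ∃ N ∈ S.BM, T = Yt L M N}

/-- Spin model: symmetric, nonzero entries, type II and type III. -/
def IsSpin (W : Matrix X X ℂ) : Prop :=
  W.IsSymm ∧ (∀ x y, W x y ≠ 0) ∧
    (∀ a b, ∑ x, W a x / W b x = if a = b then (Fintype.card X : ℂ) else 0) ∧
    ∃ D : ℂ, D ^ 2 = Fintype.card X ∧
      ∀ a b c, ∑ x, W a x * W b x / W c x = D * (W a b / (W a c * W b c))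

theorem sum_off (f : X → ℂ) (k : ℂ) (s : Finset X) (h : ∀ x, x ∉ s → f x = k) :
    ∑ x, f x = Fintype.card X * k + ∑ x ∈ s, (f x - k) := by
  rw [Finset.sum_subset (subset_univ s) (fun x _ hx => by rw [h x hx, sub_self])]
  simp [sum_sub_distrib]

theorem potts (S : Scheme X d) : ∃ W ∈ S.BM, IsSpin W := by
  obtain ⟨n, hn⟩ : ∃ n : ℂ, n = (Fintype.card X : ℂ) := ⟨_, rfl⟩
  obtain ⟨s, hs⟩ := IsAlgClosed.exists_pow_nat_eq ((n - 2) ^ 2 - 4) two_pos
  set t : ℂ := (2 - n + s) / 2 with ht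
  have h1 : t ^ 2 + (n - 2) * t + 1 = 0 := by rw [ht]; linear_combination hs / 4
  have t0 : t ≠ 0 := fun h => by rw [h] at h1; simp at h1
  obtain ⟨b, hb⟩ := IsAlgClosed.exists_pow_nat_eq (-1 / t) (show 0 < 4 by norm_num)
  have h2 : b ^ 4 * t = -1 := by rw [hb]; field_simp
  have b0 : b ≠ 0 := fun h => by rw [h] at h2; simp at h2
  clear_value t
  refine ⟨fun x y => if x = y then t * b else b, ?_, ?_, ?_, ?_, b ^ 2 * (t - 1), ?_, ?_⟩
  · rw [Scheme.BM, Submodule.mem_span_range_iff_exists_fun]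
    refine ⟨fun i => if i = 0 then t * b else b, ?_⟩
    ext x y
    simp only [Matrix.sum_apply, Matrix.smul_apply, Scheme.A, smul_eq_mul, mul_ite, mul_one, mul_zero]
    simp [S.diag]
  · ext x y; simp [eq_comm]
  · intro x y; dsimp only; split_ifs <;> simp [t0, b0]
  · intro a c
    rw [sum_off _ 1 {a, c} (by
      intro x hx; simp only [mem_insert, mem_singleton, not_or] at hx
      simp [Ne.symm hx.1, Ne.symm hx.2, b0])]
    by_cases h : a = c
    · subst h; simp [t0, b0, hn]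
    · rw [sum_pair h]; simp [h, Ne.symm h, ← hn]; field_simp; linear_combination h1
  · rw [← hn]; linear_combination (-n) * h2 + b ^ 4 * h1
  · intro a c e
    rw [sum_off _ b {a, c, e} (by
      intro x hx; simp only [mem_insert, mem_singleton, not_or] at hx
      simp [Ne.symm hx.1, Ne.symm hx.2.1, Ne.symm hx.2.2, b0])]
    by_cases p : a = c
    · subst p
      by_cases q : a = e
      · subst q; simp [← hn]; field_simp; linear_combination h1
      · rw [insert_idem, sum_pair q]; simp [q, Ne.symm q, ← hn]; field_simp; linear_combination h1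
    by_cases q : a = e
    · subst q
      rw [pair_comm c a, insert_idem, sum_pair p]; simp [p, Ne.symm p, ← hn]; field_simp; linear_combination h1
    by_cases r : c = e
    · subst r
      rw [insert_eq_of_mem (mem_singleton_self c), sum_pair p]; simp [p, Ne.symm p, ← hn]; field_simp
      linear_combination h1
    · rw [sum_insert (by simp [p, q]), sum_pair r]
      simp [p, Ne.symm p, q, Ne.symm q, r, Ne.symm r, ← hn]; field_simp; linear_combination h1

def r9 (x y : Fin 9) : Fin 3 := if x = y then 0 else if x.val / 3 = y.val / 3 then 1 else 2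

/-- The scheme of the graph `3K₃` (three disjoint triangles). -/
def S9 : Scheme (Fin 9) 2 where
  r := r9
  symm := by decide +kernel
  diag := by decide +kernel
  nonempty := by decide +kernel
  inter := ⟨fun i j k => (univ.filter (fun z => r9 0 z = i ∧ r9 z (![0, 1, 3] k) = j)).card, by decide +kernel⟩

def az (i : Fin 3) (x y : Fin 9) : ℤ := if r9 x y = i then 1 else 0
theorem A_eq (i : Fin 3) (x y : Fin 9) : S9.A i x y = (az i x y : ℂ) := by
  simp only [Scheme.A, S9, az]; split_ifs <;> simp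
def yz (i j k : Fin 3) (x y z : Fin 9) : ℤ := ∑ u, az i x u * az j y u * az k z u
theorem Y_eq (i j k : Fin 3) (x y z : Fin 9) : Yt (S9.A i) (S9.A j) (S9.A k) x y z = (yz i j k x y z : ℂ) := by
  simp [Yt, yz, A_eq]
def pz : Matrix (Fin 3) (Fin 3) ℤ := !![1, 2, 6; 1, 2, -3; 1, -1, 0]

noncomputable def E9 (i : Fin 3) : Matrix (Fin 9) (Fin 9) ℂ := fun x y => (9 : ℂ)⁻¹ * (pz (r9 x y) i : ℤ)
def P9 : Matrix (Fin 3) (Fin 3) ℂ := fun i j => (pz i j : ℤ)

theorem fsd : S9.FSD := by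
  refine ⟨E9, P9, ?_, ?_, ?_, ?_, ?_⟩
  · intro i h0
    have := congrFun (congrFun h0 0) 0
    have h' : ∀ i, pz (r9 0 0) i ≠ 0 := by decide +kernel
    simp [E9, h' i] at this
  · intro i j
    ext x y
    have h' : ∀ i j x y, ∑ u, pz (r9 x u) i * pz (r9 u y) j = if i = j then 9 * pz (r9 x y) i else 0 := by
      decide +kernel
    have := congrArg (Int.cast : ℤ → ℂ) (h' i j x y)
    rw [Matrix.mul_apply]
    push_cast at this
    have e : ∀ u, E9 i x u * E9 j u y = (81 : ℂ)⁻¹ * ((pz (r9 x u) i : ℤ) * (pz (r9 u y) j : ℤ)) :=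
      fun u => by simp only [E9]; ring
    simp only [e]
    rw [← mul_sum, this]
    split_ifs
    · simp only [E9]; ring
    · simp
  · intro x y
    have h' : ∀ k, pz k 0 = 1 := by decide +kernel
    simp [E9, h']
  · intro i
    ext x y
    have h' : ∀ i x y, ∑ j, pz j i * pz (r9 x y) j = 9 * az i x y := by decide +kernel
    have := congrArg (Int.cast : ℤ → ℂ) (h' i x y)
    push_cast at this
    rw [Matrix.sum_apply, A_eq]
    have e : ∀ j, (P9 j i • E9 j) x y = (9 : ℂ)⁻¹ * ((pz j i : ℤ) * (pz (r9 x y) j : ℤ)) :=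
      fun j => by simp only [E9, P9, Matrix.smul_apply, smul_eq_mul]; ring
    simp only [e]
    rw [← mul_sum, this]; ring
  · intro i
    ext x y
    simp [Matrix.sum_apply, Scheme.A, S9, E9, P9]

theorem span_le (S : Scheme X d) (F : Matrix X X ℂ → Matrix X X ℂ → Matrix X X ℂ → X → X → X → ℂ)
    (hF : ∀ a b c : Fin (d + 1) → ℂ, F (∑ i, a i • S.A i) (∑ i, b i • S.A i) (∑ i, c i • S.A i) =
      ∑ i, ∑ j, ∑ k, (a i * b j * c k) • F (S.A i) (S.A j) (S.A k))
    (U : Submodule ℂ (X → X → X → ℂ)) (h : ∀ i j k, F (S.A i) (S.A j) (S.A k) ∈ U) :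
    Submodule.span ℂ {T | ∃ L ∈ S.BM, ∃ M ∈ S.BM, ∃ N ∈ S.BM, T = F L M N} ≤ U := by
  rw [Submodule.span_le]
  rintro _ ⟨L, hL, M, hM, N, hN, rfl⟩
  rw [Scheme.BM, Submodule.mem_span_range_iff_exists_fun] at hL hM hN
  obtain ⟨a, rfl⟩ := hL
  obtain ⟨b, rfl⟩ := hM
  obtain ⟨c, rfl⟩ := hN
  rw [hF]
  exact U.sum_mem fun i _ => U.sum_mem fun j _ => U.sum_mem fun k _ => U.smul_mem _ (h i j k)

theorem A_mem (S : Scheme X d) (i) : S.A i ∈ S.BM := Submodule.subset_span ⟨i, rfl⟩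

def rp (a b c : Fin 3) : Fin 9 × Fin 9 :=
  (![0, 1, 3] b, if c = 0 then ![0, 1, 3] b else if a = 0 then 0 else if a = 1 then (if b = 1 then 2 else 1)
    else if c = 1 then 4 else if b = 2 then 6 else 3)

def al (i j k : Fin 3) : ℤ := if (i, j, k) ∈ [(0,0,0), (0,1,1), (0,2,2), (1,0,1), (1,1,1), (1,2,2), (2,0,2), (2,1,2), (2,2,2)]
  then 1 else 0
def be (i j k : Fin 3) : ℤ := if i = j ∧ i ≠ 0 then (if k = 0 then 1 else if k = i then -1 else 0) else 0
def ga (i j k : Fin 3) : ℤ := if i = 2 ∧ j = 2 then (if k = 1 then 1 else if k = 2 then -1 else 0) else 0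

theorem etr : S9.ETR := by
  apply le_antisymm
  · apply span_le
    · intro a b c; funext x y z
      simp only [Del, Matrix.sum_apply, Matrix.smul_apply, Finset.sum_apply, Pi.smul_apply, smul_eq_mul,
        Fin.sum_univ_succ, Fin.sum_univ_zero, Matrix.add_apply, Pi.add_apply]
      simp; ring
    · intro i j k
      have hm : ∀ i j k, Yt (S9.A i) (S9.A j) (S9.A k) ∈
          Submodule.span ℂ {T | ∃ L ∈ S9.BM, ∃ M ∈ S9.BM, ∃ N ∈ S9.BM, T = Yt L M N} :=
        fun i j k => Submodule.subset_span ⟨_, A_mem _ i, _, A_mem _ j, _, A_mem _ k, rfl⟩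
      have h' : ∀ i j k x y z, az i x z * az j x y * az k y z =
          al i j k * yz 0 j i x y z + be i j k * yz i 0 0 x y z + ga i j k * yz 2 0 1 x y z := by decide +kernel
      have e : Del (S9.A i) (S9.A j) (S9.A k) = ((al i j k : ℤ) : ℂ) • Yt (S9.A 0) (S9.A j) (S9.A i) +
          ((be i j k : ℤ) : ℂ) • Yt (S9.A i) (S9.A 0) (S9.A 0) + ((ga i j k : ℤ) : ℂ) • Yt (S9.A 2) (S9.A 0) (S9.A 1) := by
        funext x y z
        simp only [Pi.add_apply, Pi.smul_apply, smul_eq_mul, Y_eq, Del, A_eq]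
        exact_mod_cast h' i j k x y z
      rw [e]
      exact Submodule.add_mem _ (Submodule.add_mem _ (Submodule.smul_mem _ _ (hm _ _ _))
        (Submodule.smul_mem _ _ (hm _ _ _))) (Submodule.smul_mem _ _ (hm _ _ _))
  · apply span_le
    · intro a b c; funext x y z
      simp only [Yt, Finset.sum_apply, Pi.smul_apply, smul_eq_mul, mul_sum]
      conv_rhs => enter [2, i, 2, j]; rw [sum_comm]
      conv_rhs => enter [2, i]; rw [sum_comm]
      rw [sum_comm]
      refine sum_congr rfl fun u _ => ?_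
      simp only [Matrix.sum_apply, Matrix.smul_apply, smul_eq_mul, Fin.sum_univ_succ, Fin.sum_univ_zero,
        Matrix.add_apply]
      simp; ring
    · intro i j k
      have h' : ∀ i j k x y z, yz i j k x y z =
          yz i j k 0 (rp (r9 x z) (r9 x y) (r9 y z)).1 (rp (r9 x z) (r9 x y) (r9 y z)).2 := by decide +kernel
      have e : Yt (S9.A i) (S9.A j) (S9.A k) = ∑ a, ∑ b, ∑ c, ((yz i j k 0 (rp a b c).1 (rp a b c).2 : ℤ) : ℂ) •
          Del (S9.A a) (S9.A b) (S9.A c) := by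
        funext x y z
        rw [Y_eq, h']
        simp [Finset.sum_apply, Del, Scheme.A, S9]
      rw [e]
      exact Submodule.sum_mem _ fun a _ => Submodule.sum_mem _ fun b _ => Submodule.sum_mem _ fun c _ =>
        Submodule.smul_mem _ _ (Submodule.subset_span ⟨_, A_mem _ a, _, A_mem _ b, _, A_mem _ c, rfl⟩)

theorem only (W : Matrix (Fin 9) (Fin 9) ℂ) (hW : W ∈ S9.BM) (h : IsSpin W) :
    ∃ α β : ℂ, ∀ x y, W x y = if x = y then α else β := by
  rw [Scheme.BM, Submodule.mem_span_range_iff_exists_fun] at hW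
  obtain ⟨c, hc⟩ := hW
  have hw : ∀ x y, W x y = c (r9 x y) := by
    intro x y; rw [← hc]; simp [Matrix.sum_apply, Scheme.A, S9]
  obtain ⟨-, h0, h2, D, hD, h3⟩ := h
  have a0 := h0 0 0
  have a1 := h0 0 1
  have a2 := h0 0 3
  have b1 := h2 0 1
  have b2 := h2 0 3
  have c0 := h3 0 0 0
  have c1 := h3 0 0 1
  have c2 := h3 0 0 3
  have c3 := h3 0 1 2
  simp [hw, r9, Fin.sum_univ_succ] at a0 a1 a2 b1 b2 c0 c1 c2 c3 hD
  have e : c 1 = c 2 := by grind
  refine ⟨c 0, c 1, fun x y => ?_⟩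
  rw [hw, r9]; split_ifs
  · rfl
  · rfl
  · exact e.symm

theorem result :
    (∀ (X : Type) [Fintype X] [DecidableEq X] (d : ℕ) (S : Scheme X d), ∃ W ∈ S.BM, IsSpin W) ∧
    (∃ S : Scheme (Fin 9) 2, S.FSD ∧ S.ETR ∧
      ∀ W ∈ S.BM, IsSpin W → ∃ α β : ℂ, ∀ x y, W x y = if x = y then α else β) :=
  ⟨fun _ _ _ _ S => potts S, S9, fsd, etr, only⟩

end Pool.Agent.Results.MP_a35cac_co.Potts
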